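import Pool.Agent.helper5.IH.Spec

set_option autoImplicit false

namespace Pool.Agent.IH

open Finset CT SYM

private theorem EWW_walk {V : Type} {G : SimpleGraph V} {q : ℕ → V}
    (hadj : ∀ i, G.Adj (q i) (q (i + 1))) : ∀ i : ℕ, ∃ p : G.Walk (q 0) (q i),
      p.edges = (List.range i).map fun j => s(q j, q (j + 1)) := by
  intro i
  induction i with
  | zero => exact ⟨SimpleGraph.Walk.nil, by simp⟩
  | succ i ih =>
    obtain ⟨p, hp⟩ := ih
    refine ⟨p.concat (hadj i), ?_⟩
    rw [SimpleGraph.Walk.edges_concat, hp, List.range_succ, List.map_append]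
    simp

theorem EWW : EWW_stmt := by
  intro V _ _ G m q h
  obtain ⟨p, hp⟩ := EWW_walk h.adj m
  have hm : q m = q 0 := by
    have := h.per 0
    rwa [Nat.zero_add] at this
  refine ⟨q 0, p.copy rfl hm, ?_⟩
  intro e he
  rw [SimpleGraph.Walk.edges_copy, hp]
  refine List.count_eq_one_of_mem ?_ ?_
  · refine List.Nodup.map_on ?_ List.nodup_range
    intro x hx y hy hxy
    rw [List.mem_range] at hx hy
    exact h.inj x hx y hy hxy
  · rw [List.mem_map]
    induction e using Sym2.ind with
    | _ u w =>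
      rw [SimpleGraph.mem_edgeSet] at he
      obtain ⟨i, hi, he'⟩ := h.sur u w he
      exact ⟨i, List.mem_range.2 hi, he'⟩

end Pool.Agent.IH
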